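import Pool.Agent.MP_1f8704_gt.Linear

/-!
Q1 (linear condensations): positive answer, already from one of the two maps.
-/

namespace Pool.Agent.Results.MP_1f8704_gt.LinearQ1

open Pool.Agent.MP_1f8704_gt

universe u v

/-- If `X` is analytic and `T : C_p(X) → C_p(Y)` is a continuous linear surjection, with `T`
injective (a linear condensation) or merely `Y` nonempty, then `Y` is analytic. -/
theorem result (X : Type u) (Y : Type v) [TopologicalSpace X] [T35Space X]
    [TopologicalSpace Y] [T35Space Y] (hX : IsAnalyticSpace X)
    (T : Cp X →L[ℝ] Cp Y) (hsurj : Function.Surjective T)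
    (h : Function.Injective T ∨ Nonempty Y) : IsAnalyticSpace Y := by
  have hY : Nonempty Y := by
    rcases h with h | h
    · by_contra hY
      rw [not_nonempty_iff] at hY
      obtain ⟨f, -, -⟩ := hX
      have h01 : (⟨fun _ => 1, continuous_const⟩ : Cp X) = 0 :=
        h (Subtype.ext (funext fun y => isEmptyElim y))
      have := congrArg (fun g : Cp X => (g : X → ℝ) (f 0)) h01
      simp at this
    · exact h
  exact analytic_of_linear_surjection hX T hsurj

end Pool.Agent.Results.MP_1f8704_gt.LinearQ1
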