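import Pool.Agent.MP_1f8704_gt.Mg.Nonlinear

/-!
Q2 (arbitrary condensations): negative answer, with a countable `X`.
-/

namespace Pool.Agent.Results.MP_1f8704_gt.NonlinearQ2

open Pool.Agent.MP_1f8704_gt

/-- There are Tychonoff spaces `X`, `Y` with `X` analytic (even countable) and `Y` not analytic
such that `C_p(X)` and `C_p(Y)` condense onto each other. -/
theorem result : ∃ (X Y : Type) (_ : TopologicalSpace X) (_ : TopologicalSpace Y),
    T35Space X ∧ T35Space Y ∧ Countable X ∧ IsAnalyticSpace X ∧ ¬ IsAnalyticSpace Y ∧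
    (∃ f : Cp X → Cp Y, Continuous f ∧ Function.Bijective f) ∧
    (∃ g : Cp Y → Cp X, Continuous g ∧ Function.Bijective g) := by
  obtain ⟨Z, hZ, h⟩ := exists_not_range
  obtain ⟨X, _, h1, h2, h3, h4, h5⟩ := mutual_cond Z
  exact ⟨X, X ⊕ Z, inferInstance, inferInstance, h1, t35_sum X Z, h2, analytic_of_countable X,
    not_analytic_sum hZ h, h4, h5⟩

end Pool.Agent.Results.MP_1f8704_gt.NonlinearQ2
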